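import Mathlib
import Pool.Agent.Run7.h595.Class

set_option autoImplicit false

/-!
Two-dimensional perfect binary arrays: classification of all pairs `(s, t)` for which every odd
prime dividing `s t` is self-conjugate.
-/

namespace Pool.Agent.Results.MP_82ec8b_co.SelfConjugateClassification

/-- A perfect binary array `PBA(s,t)` exists: `s` and `t` are positive and there is an `s × t`
array with entries `1` or `-1`, indices taken modulo `s` and `t`, whose periodic autocorrelation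
is `s t` at the zero shift and `0` at every other shift. -/
def PBA (s t : ℕ) : Prop :=
  ∃ (_ : NeZero s) (_ : NeZero t) (a : ZMod s → ZMod t → ℤ),
    (∀ i j, a i j = 1 ∨ a i j = -1) ∧
    ∀ u v, ∑ i, ∑ j, a i j * a (i + u) (j + v) = if u = 0 ∧ v = 0 then (s : ℤ) * t else 0

/-- The prime `p` is self-conjugate modulo the `p`-free part `w` of `lcm s t`: some power of `p`
is congruent to `-1` modulo `w`. -/
def SelfConj (s t p : ℕ) : Prop := ∃ j : ℕ, ordCompl[p] (Nat.lcm s t) ∣ p ^ j + 1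

/-- Suppose some odd prime divides `s t`, and every odd prime dividing `s t` is self-conjugate.
Then a `PBA(s,t)` exists if and only if `(s,t)` is one of `(2·3^b, 2·3^b)`, `(3^b, 4·3^b)`,
`(4·3^b, 3^b)`, `(4·3^b, 4·3^b)` with `b ≥ 1`. -/
theorem result
    (s t : ℕ) (hodd : ∃ p : ℕ, p.Prime ∧ p ≠ 2 ∧ p ∣ s * t)
    (hsc : ∀ p : ℕ, p.Prime → p ≠ 2 → p ∣ s * t → SelfConj s t p) :
    PBA s t ↔ ∃ b : ℕ, 1 ≤ b ∧ ((s = 2 * 3 ^ b ∧ t = 2 * 3 ^ b) ∨ (s = 3 ^ b ∧ t = 4 * 3 ^ b) ∨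
      (s = 4 * 3 ^ b ∧ t = 3 ^ b) ∨ (s = 4 * 3 ^ b ∧ t = 4 * 3 ^ b)) := by
  refine Run7.h595.classification hodd ?_
  intro p hp hp2 hpst
  obtain ⟨j, hj⟩ := hsc p hp hp2 hpst
  refine ⟨j, ?_⟩
  have h := (ZMod.natCast_eq_zero_iff (p ^ j + 1) (ordCompl[p] (Nat.lcm s t))).2 hj
  push_cast at h
  exact eq_neg_of_add_eq_zero_left h

end Pool.Agent.Results.MP_82ec8b_co.SelfConjugateClassification
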