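import Mathlib
import Pool.Agent.Run7.h595.Multi

set_option autoImplicit false

/-!
Two-dimensional perfect binary arrays: necessary conditions from self-conjugate primes.
-/

namespace Pool.Agent.Results.MP_82ec8b_co.SelfConjugatePrimes

/-- A perfect binary array `PBA(s,t)` exists: `s` and `t` are positive and there is an `s × t`
array with entries `1` or `-1`, indices taken modulo `s` and `t`, whose periodic autocorrelation
is `s t` at the zero shift and `0` at every other shift. -/
def PBA (s t : ℕ) : Prop :=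
  ∃ (_ : NeZero s) (_ : NeZero t) (a : ZMod s → ZMod t → ℤ),
    (∀ i j, a i j = 1 ∨ a i j = -1) ∧
    ∀ u v, ∑ i, ∑ j, a i j * a (i + u) (j + v) = if u = 0 ∧ v = 0 then (s : ℤ) * t else 0

/-- The prime `p` is self-conjugate modulo the `p`-free part `w` of `lcm s t`: some power of `p`
is congruent to `-1` modulo `w`. -/
def SelfConj (s t p : ℕ) : Prop := ∃ j : ℕ, ordCompl[p] (Nat.lcm s t) ∣ p ^ j + 1

/-- Let `Q` be a set of odd primes dividing `s t`, each self-conjugate. If a `PBA(s,t)` exists,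
then the largest divisor of `s t` prime to `Q` is `(2n)^2` for some `n`, and for every `p ∈ Q` the
number `p + 1` divides `(2n)^2`, and `p = 3` or `p + 3 ≤ 2n`. -/
theorem result
    (s t : ℕ) (h : PBA s t) (Q : Finset ℕ) (hQ : Q.Nonempty)
    (hsc : ∀ p ∈ Q, p.Prime ∧ p ≠ 2 ∧ p ∣ s * t ∧ SelfConj s t p) :
    ∃ n : ℕ, s * t = (2 * n) ^ 2 * ∏ q ∈ Q, q ^ (s * t).factorization q ∧
      ∀ p ∈ Q, (p + 1) ∣ (2 * n) ^ 2 ∧ (p = 3 ∨ p + 3 ≤ 2 * n) := by
  have hgood : ∀ p ∈ Q, Run7.h595.Good s t p := by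
    intro p hp
    obtain ⟨hpp, hp2, hpst, j, hj⟩ := hsc p hp
    refine ⟨hpp, hp2, hpst, j, ?_⟩
    have h := (ZMod.natCast_eq_zero_iff (p ^ j + 1) (ordCompl[p] (Nat.lcm s t))).2 hj
    push_cast at h
    exact eq_neg_of_add_eq_zero_left h
  exact Run7.h595.necessary_square Q s t h hQ hgood

end Pool.Agent.Results.MP_82ec8b_co.SelfConjugatePrimes
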