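import Mathlib
import Pool.Agent.Run7.h595.NoPba

set_option autoImplicit false

/-!
Two-dimensional perfect binary arrays: nonexistence for `s ≡ t ≡ 2 (mod 4)`, with primes that
need not be self-conjugate.
-/

namespace Pool.Agent.Results.MP_82ec8b_co.TwoModFour

/-- A perfect binary array `PBA(s,t)` exists: `s` and `t` are positive and there is an `s × t`
array with entries `1` or `-1`, indices taken modulo `s` and `t`, whose periodic autocorrelation
is `s t` at the zero shift and `0` at every other shift. -/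
def PBA (s t : ℕ) : Prop :=
  ∃ (_ : NeZero s) (_ : NeZero t) (a : ZMod s → ZMod t → ℤ),
    (∀ i j, a i j = 1 ∨ a i j = -1) ∧
    ∀ u v, ∑ i, ∑ j, a i j * a (i + u) (j + v) = if u = 0 ∧ v = 0 then (s : ℤ) * t else 0

/-- Let `s ≡ t ≡ 2 (mod 4)`, let `p` be an odd prime dividing `s t`, with `p ≥ 5` or `p` not
dividing `gcd(s,t)`, and suppose that every other odd prime `q` dividing `s t` has `-1` among its
powers modulo `p`, or `p ≡ 3` and `q ≡ 1 (mod 4)`. Then there is no `PBA(s,t)`. -/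
theorem result
    (s t p : ℕ) (hs : s % 4 = 2) (ht : t % 4 = 2) (hp : p.Prime) (hp2 : p ≠ 2)
    (hpst : p ∣ s * t) (h3 : 5 ≤ p ∨ ¬ p ∣ Nat.gcd s t)
    (hq : ∀ q : ℕ, q.Prime → q ≠ 2 → q ≠ p → q ∣ s * t →
      (∃ j : ℕ, p ∣ q ^ j + 1) ∨ (p % 4 = 3 ∧ q % 4 = 1)) : ¬ PBA s t :=
  Run7.h595.no_pba hs ht hp hp2 hpst h3 hq

end Pool.Agent.Results.MP_82ec8b_co.TwoModFour
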